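import Mathlib

/-!
# Group functors over a field, linear algebraic groups as functors of points
-/

set_option autoImplicit false

namespace Pool.Agent.helper83.TA

/-- A group functor over the field `F`: a functor from commutative `F`-algebras to groups
(for a linear algebraic group `G` over `F` this is its functor of points `R ↦ G(R)`). -/
structure GroupFunctor (F : Type) [Field F] where
  /-- the group of `R`-points -/
  obj : (R : Type) → [CommRing R] → [Algebra F R] → Type
  /-- its group structure -/
  [grp : ∀ (R : Type) [CommRing R] [Algebra F R], Group (obj R)]
  /-- functoriality -/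
  map : ∀ {R R' : Type} [CommRing R] [Algebra F R] [CommRing R'] [Algebra F R'],
    (R →ₐ[F] R') → (obj R →* obj R')
  /-- identities are preserved -/
  map_id : ∀ (R : Type) [CommRing R] [Algebra F R] (x : obj R), map (AlgHom.id F R) x = x
  /-- compositions are preserved -/
  map_comp : ∀ {R R' R'' : Type} [CommRing R] [Algebra F R] [CommRing R'] [Algebra F R']
    [CommRing R''] [Algebra F R''] (f : R →ₐ[F] R') (g : R' →ₐ[F] R'') (x : obj R),
    map (g.comp f) x = map g (map f x)

namespace GroupFunctor

attribute [instance] GroupFunctor.grp

variable {F : Type} [Field F]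

/-- A homomorphism of group functors over `F` (by the Yoneda lemma this is, for affine algebraic
groups, the same as a homomorphism of algebraic groups over `F`). -/
structure Hom (G G' : GroupFunctor F) where
  /-- the homomorphism on `R`-points -/
  app : ∀ (R : Type) [CommRing R] [Algebra F R], G.obj R →* G'.obj R
  /-- naturality -/
  naturality : ∀ {R R' : Type} [CommRing R] [Algebra F R] [CommRing R'] [Algebra F R']
    (f : R →ₐ[F] R') (x : G.obj R), app R' (G.map f x) = G'.map f (app R x)

/-- `G` and `G'` are isomorphic. -/
def Isomorphic (G G' : GroupFunctor F) : Prop :=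
  ∃ φ : Hom G G', ∀ (R : Type) [CommRing R] [Algebra F R], Function.Bijective (φ.app R)

/-- `G` is an affine algebraic group over `F`: its functor of points is represented by a finitely
generated commutative `F`-algebra `H` with universal point `u ∈ G(H)`. -/
def IsAffineAlgebraic (G : GroupFunctor F) : Prop :=
  ∃ (H : Type) (_ : CommRing H) (_ : Algebra F H) (u : G.obj H), Algebra.FiniteType F H ∧
    ∀ (R : Type) [CommRing R] [Algebra F R],
      Function.Bijective (fun f : H →ₐ[F] R => G.map f u)

/-- The multiplicative group, `R ↦ Rˣ`. -/
def Gm (F : Type) [Field F] : GroupFunctor F where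
  obj R _ _ := Rˣ
  map f := Units.map (f : _ →* _)
  map_id R _ _ x := by ext; rfl
  map_comp f g x := by ext; rfl

/-- The special linear group, `R ↦ SL_n(R)`. -/
def SL (n : ℕ) (F : Type) [Field F] : GroupFunctor F where
  obj R _ _ := Matrix.SpecialLinearGroup (Fin n) R
  map f := Matrix.SpecialLinearGroup.map (f : _ →+* _)
  map_id R _ _ x := by ext; rfl
  map_comp f g x := by ext; rfl

/-- `G` is isotropic: it contains a copy of the multiplicative group, that is, there is a
homomorphism from `Gm` to `G` over `F` which is injective on `R`-points for all `R`. -/
def Isotropic (G : GroupFunctor F) : Prop :=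
  ∃ φ : Hom (Gm F) G, ∀ (R : Type) [CommRing R] [Algebra F R], Function.Injective (φ.app R)

/-- The base change `G_K` of `G` to an extension field `K` of `F`: a `K`-algebra `R` is sent to
`G(R)`, where `R` is considered as an `F`-algebra. -/
def baseChange (K : Type) [Field K] [Algebra F K] (G : GroupFunctor F) : GroupFunctor K where
  obj R _ _ := letI : Algebra F R := Algebra.compHom R (algebraMap F K); G.obj R
  grp R _ _ := letI : Algebra F R := Algebra.compHom R (algebraMap F K); G.grp R
  map {R R'} _ _ _ _ f :=
    letI : Algebra F R := Algebra.compHom R (algebraMap F K)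
    letI : Algebra F R' := Algebra.compHom R' (algebraMap F K)
    G.map (R := R) (R' := R')
      { (f : R →+* R') with commutes' := fun r => f.commutes (algebraMap F K r) }
  map_id R _ _ x := by
    let : Algebra F R := Algebra.compHom R (algebraMap F K)
    exact G.map_id R x
  map_comp {R R' R''} _ _ _ _ _ _ f g x := by
    let : Algebra F R := Algebra.compHom R (algebraMap F K)
    let : Algebra F R' := Algebra.compHom R' (algebraMap F K)
    let : Algebra F R'' := Algebra.compHom R'' (algebraMap F K)
    exact G.map_comp (R := R) (R' := R') (R'' := R'')
      { (f : R →+* R') with commutes' := fun r => f.commutes (algebraMap F K r) }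
      { (g : R' →+* R'') with commutes' := fun r => g.commutes (algebraMap F K r) } x

end GroupFunctor

end Pool.Agent.helper83.TA
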