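import Pool.Agent.helper83.TA.Base
import Pool.Agent.helper83.TA.GF

/-!
# The unitary group as a group functor
-/

set_option autoImplicit false

namespace Pool.Agent.helper83.TA

section
variable {R R' R'' : Type} [CommRing R] [CommRing R'] [CommRing R'']

theorem B_map (f : R →+* R') (t : R) : (B t).map (S.map f) = B (f t) := by
  ext1 p q
  simp only [B, Matrix.map_apply]
  split_ifs
  · rcases p with ⟨_, p⟩
    rcases q with ⟨_, q⟩
    fin_cases p <;> fin_cases q <;> simp [B3, S.map_C]
  · simp

theorem Q_map (f : R →+* R') (t : R) : (Q t).map (S.map f) = Q (f t) := by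
  ext1 p q
  simp only [Q, Matrix.map_apply]
  split_ifs
  · rcases p with ⟨_, p⟩
    rcases q with ⟨_, q⟩
    fin_cases p <;> fin_cases q <;> simp [C3, S.map_C]
  · simp

theorem SU_map (f : R →+* R') {t : R} {g : Matrix.SpecialLinearGroup I (S R)} (hg : g ∈ SU R t) :
    Matrix.SpecialLinearGroup.map (S.map f) g ∈ SU R' (f t) := by
  obtain ⟨h1, h2⟩ := hg
  have e1 : ((g : Matrix I I (S R)).map (S.map f)).map S.sg =
      ((g : Matrix I I (S R)).map S.sg).map (S.map f) := by
    ext1 p q
    simp [S.map_sg]
  have e2 : ((g : Matrix I I (S R)).map (S.map f)).map S.rh =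
      ((g : Matrix I I (S R)).map S.rh).map (S.map f) := by
    ext1 p q
    simp [S.map_rh]
  refine ⟨?_, ?_⟩
  · show ((g : Matrix I I (S R)).map (S.map f)).map S.sg * B (f t) =
      B (f t) * (g : Matrix I I (S R)).map (S.map f)
    rw [e1, ← B_map, ← Matrix.map_mul, ← Matrix.map_mul, h1]
  · show (((g : Matrix I I (S R)).map (S.map f)).map S.rh).transpose * Q (f t) *
      (g : Matrix I I (S R)).map (S.map f) = Q (f t)
    rw [e2, ← Q_map, ← Matrix.transpose_map, ← Matrix.map_mul, ← Matrix.map_mul, h2]

/-- the map on points induced by a ring homomorphism -/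
def suMap (f : R →+* R') {t : R} {t' : R'} (h : f t = t') : SU R t →* SU R' t' where
  toFun g := ⟨Matrix.SpecialLinearGroup.map (S.map f) g.1, h ▸ SU_map f g.2⟩
  map_one' := by
    ext1
    exact map_one _
  map_mul' x y := by
    ext1
    exact map_mul _ _ _

end

/-- The group `SU(h)` as a group functor over the field `F`, for `t ∈ F`: its `R`-points are the
elements of `SU R t`. -/
def unitary (F : Type) [Field F] (t : F) : GroupFunctor F where
  obj R _ _ := SU R (algebraMap F R t)
  map f := suMap (f : _ →+* _) (f.commutes t)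
  map_id R _ _ x := by
    apply Subtype.ext
    ext1 i j
    exact S.map_id _
  map_comp f g x := by
    apply Subtype.ext
    ext1 i j
    exact (S.map_map _ _ _).symm

/-- The ground field `ℚ(t)`. -/
abbrev F0 : Type := RatFunc ℚ

/-- The group of the counterexample, over `ℚ(t)`. -/
noncomputable def G0 : GroupFunctor F0 := unitary F0 RatFunc.X

end Pool.Agent.helper83.TA
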