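import Pool.Agent.helper83.TA.Defs

/-!
# The explicit isotropic vector
-/

set_option autoImplicit false

namespace Pool.Agent.helper83.TA

open S

section
variable {R : Type} [CommRing R]

/-- the matrix of `e0 + e1 β + e2 β ^ 2` -/
def dm (t : R) (e0 e1 e2 : S R) : Matrix (Fin 3) (Fin 3) (S R) :=
  !![e0, C t * e2, C t * e1; sg (sg e1), sg (sg e0), C t * sg (sg e2); sg e2, sg e1, sg e0]

theorem dm_sg (t : R) (e0 e1 e2 : S R) :
    (dm t e0 e1 e2).map sg * B3 t = B3 t * dm t e0 e1 e2 := by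
  ext1 i j
  fin_cases i <;> fin_cases j <;>
    simp [dm, B3, Matrix.mul_apply, Fin.sum_univ_three, sg_sg_sg, sg_C, mul_comm, ← mul_assoc]

/-- the product `τ(e) f`, degree `0` -/
def p0 (t : R) (e0 e1 e2 f0 f1 f2 : S R) : S R :=
  rh e0 * f0 + C t * sg (rh e1 * f2) + C t * sg (sg (rh e2 * f1))

/-- the product `τ(e) f`, degree `1` -/
def p1 (t : R) (e0 e1 e2 f0 f1 f2 : S R) : S R :=
  rh e0 * f1 + sg (rh e1 * f0) + C t * sg (sg (rh e2 * f2))

/-- the product `τ(e) f`, degree `2` -/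
def p2 (e0 e1 e2 f0 f1 f2 : S R) : S R :=
  rh e0 * f2 + sg (rh e1 * f1) + sg (sg (rh e2 * f0))

theorem dm_herm (t : R) (e0 e1 e2 f0 f1 f2 : S R) :
    ((dm t e0 e1 e2).map rh).transpose * C3 t * dm t f0 f1 f2 =
      C3 t * dm t (p0 t e0 e1 e2 f0 f1 f2) (p1 t e0 e1 e2 f0 f1 f2) (p2 e0 e1 e2 f0 f1 f2) := by
  ext1 i j
  fin_cases i <;> fin_cases j <;>
    (simp [dm, C3, p0, p1, p2, Matrix.mul_apply, Fin.sum_univ_three, sg_sg_sg, sg_C, rh_C, rh_sg]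
     ring)

/-- the column vector over `D` -/
def vec (t : R) (E0 E1 E2 : Fin 9 → S R) : Matrix I (Fin 3) (S R) :=
  fun p q => dm t (E0 p.1) (E1 p.1) (E2 p.1) p.2 q

theorem vec_sg (t : R) (E0 E1 E2 : Fin 9 → S R) :
    (vec t E0 E1 E2).map sg * B3 t = B t * vec t E0 E1 E2 := by
  ext1 p q
  have h := congrFun (congrFun (dm_sg t (E0 p.1) (E1 p.1) (E2 p.1)) p.2) q
  rw [Matrix.mul_apply] at h ⊢
  rw [Matrix.mul_apply] at h ⊢
  rw [Fintype.sum_prod_type]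
  have : ∀ k : Fin 9, (∑ l : Fin 3, B t p (k, l) * vec t E0 E1 E2 (k, l) q) =
      if p.1 = k then ∑ l : Fin 3, B3 t p.2 l * dm t (E0 p.1) (E1 p.1) (E2 p.1) l q else 0 := by
    intro k
    simp only [B, vec]
    split_ifs with hk
    · subst hk; rfl
    · simp
  rw [Finset.sum_congr rfl (fun k _ => this k), Finset.sum_ite_eq]
  simp only [Finset.mem_univ, if_true]
  exact h

/-- nine blocks above each other -/
def stack (E : Fin 9 → Matrix (Fin 3) (Fin 3) (S R)) : Matrix I (Fin 3) (S R) :=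
  fun p q => E p.1 p.2 q

theorem vec_herm' (t : R) (E F : Fin 9 → Matrix (Fin 3) (Fin 3) (S R)) (a b : Fin 3) :
    (((stack E).map rh).transpose * Q t * stack F) a b =
      ∑ k, (wt k : S R) * (((E k).map rh).transpose * C3 t * F k) a b := by
  rw [Matrix.mul_apply, Fintype.sum_prod_type]
  refine Finset.sum_congr rfl fun k _ => ?_
  rw [Matrix.mul_apply, Finset.mul_sum]
  refine Finset.sum_congr rfl fun l _ => ?_
  rw [Matrix.mul_apply, Matrix.mul_apply, Fintype.sum_prod_type, ← mul_assoc]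
  congr 1
  rw [Finset.mul_sum]
  have : ∀ k' : Fin 9, (∑ l' : Fin 3,
      (((stack E).map rh).transpose a (k', l')) * Q t (k', l') (k, l)) =
      if k' = k then ∑ l' : Fin 3, (wt k : S R) * (((E k).map rh).transpose a l' * C3 t l' l)
        else 0 := by
    intro k'
    simp only [Q, Matrix.transpose_apply, Matrix.map_apply, stack]
    split_ifs with hk
    · subst hk
      refine Finset.sum_congr rfl fun l' _ => ?_
      ring
    · simp
  rw [Finset.sum_congr rfl (fun k _ => this k), Finset.sum_ite_eq']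
  simp

theorem dm_add (t : R) (e0 e1 e2 f0 f1 f2 : S R) :
    dm t (e0 + f0) (e1 + f1) (e2 + f2) = dm t e0 e1 e2 + dm t f0 f1 f2 := by
  ext1 i j
  fin_cases i <;> fin_cases j <;> simp [dm, mul_add]

theorem dm_natCast_mul (t : R) (n : ℕ) (e0 e1 e2 : S R) :
    dm t ((n : S R) * e0) (n * e1) (n * e2) = (n : S R) • dm t e0 e1 e2 := by
  ext1 i j
  fin_cases i <;> fin_cases j <;> simp [dm] <;> ring

theorem dm_zero (t : R) : dm t 0 0 0 = 0 := by
  ext1 i j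
  fin_cases i <;> fin_cases j <;> simp [dm]

theorem dm_sum (t : R) (s : Finset (Fin 9)) (P0 P1 P2 : Fin 9 → S R) :
    dm t (∑ k ∈ s, (wt k : S R) * P0 k) (∑ k ∈ s, (wt k : S R) * P1 k)
      (∑ k ∈ s, (wt k : S R) * P2 k) =
      ∑ k ∈ s, (wt k : S R) • dm t (P0 k) (P1 k) (P2 k) := by
  classical
  induction s using Finset.induction_on with
  | empty => simp [dm_zero]
  | insert a s ha ih =>
    rw [Finset.sum_insert ha, Finset.sum_insert ha, Finset.sum_insert ha, Finset.sum_insert ha,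
      dm_add, ih, dm_natCast_mul]

theorem vec_herm (t : R) (E0 E1 E2 F0 F1 F2 : Fin 9 → S R) :
    ((vec t E0 E1 E2).map rh).transpose * Q t * vec t F0 F1 F2 =
      C3 t * dm t (∑ k, (wt k : S R) * p0 t (E0 k) (E1 k) (E2 k) (F0 k) (F1 k) (F2 k))
        (∑ k, (wt k : S R) * p1 t (E0 k) (E1 k) (E2 k) (F0 k) (F1 k) (F2 k))
        (∑ k, (wt k : S R) * p2 (E0 k) (E1 k) (E2 k) (F0 k) (F1 k) (F2 k)) := by
  rw [dm_sum, Finset.mul_sum]
  ext1 a b
  have h := vec_herm' t (fun k => dm t (E0 k) (E1 k) (E2 k)) (fun k => dm t (F0 k) (F1 k) (F2 k)) a b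
  refine h.trans ?_
  rw [Matrix.sum_apply]
  refine Finset.sum_congr rfl fun k _ => ?_
  rw [dm_herm]
  simp

end

theorem natCast_eq_C {R : Type} [CommRing R] (n : ℕ) : (n : S R) = C (n : R) :=
  (map_natCast C n).symm

theorem ofNat_eq_C {R : Type} [CommRing R] (n : ℕ) [n.AtLeastTwo] :
    (OfNat.ofNat n : S R) = C (OfNat.ofNat n : R) := by
  rw [← Nat.cast_ofNat, natCast_eq_C, Nat.cast_ofNat]

section
variable {L : Type} [Field L]

/-- first coordinates of the isotropic vector -/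
def vE0 (x : L) : Fin 9 → S L :=
  ![⟨-5, 1, 1, 0, 0, 0⟩, ⟨0, 3, -2, 0, 0, 0⟩, 0,
    ⟨3 * (x - 1) / (x ^ 2 + 3), 0, 0, -6 / (x ^ 2 + 3), 0, 0⟩, 0, 0, 0, 0, 0]

/-- second coordinates of the isotropic vector -/
def vE1 (x : L) : Fin 9 → S L :=
  ![⟨1 / x, 0, 0, 0, 0, 0⟩, 0, ⟨2 / x, 0, 0, 0, 0, 0⟩, 0, 0, 0,
    ⟨0, 0, 0, 0, 0, 1 / (2 * x)⟩, 0, ⟨0, -1 / (2 * x), 0, 0, -1 / (2 * x), 0⟩]

/-- third coordinates of the isotropic vector -/
def vE2 (x : L) : Fin 9 → S L :=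
  ![⟨1 / (2 * x ^ 2), 0, 0, 0, 0, 0⟩, 0, ⟨-3 / (2 * x ^ 2), 0, 0, 0, 0, 0⟩, 0,
    ⟨(x - 2) / (2 * x * (x ^ 2 + 12)), 0, 0, -4 / (2 * x * (x ^ 2 + 12)), 0, 0⟩,
    ⟨0, 0, (-x ^ 2 - x - 6) / (2 * x ^ 2 * (x ^ 2 + 12)), 0, 0,
      (-x ^ 2 + x - 6) / (2 * x ^ 2 * (x ^ 2 + 12))⟩, 0,
    ⟨0, 2 * x / (x ^ 2 * (x ^ 2 + 12)), 0, 0, (x ^ 2 + x + 6) / (x ^ 2 * (x ^ 2 + 12)), 0⟩, 0]

/-- the partner vector -/
def wE0 (x : L) : Fin 9 → S L :=
  ![0, 0, 0, ⟨(x - 1) / 15, 0, 0, -2 / 15, 0, 0⟩, 0, 0, 0, 0, 0]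


theorem sum_p0 [CharZero L] (x : L) (hx : x ≠ 0) (h3 : x ^ 2 + 3 ≠ 0) (h12 : x ^ 2 + 12 ≠ 0) :
    ∑ k, (wt k : S L) * p0 (x ^ 3 * (x ^ 2 + 12) / (x ^ 2 + 3)) (vE0 x k) (vE1 x k) (vE2 x k)
      (vE0 x k) (vE1 x k) (vE2 x k) = 0 := by
  ext <;> simp [Fin.sum_univ_succ, wt, p0, vE0, vE1, vE2, ofNat_eq_C] <;> field_simp <;> ring

theorem sum_p1 [CharZero L] (x : L) (hx : x ≠ 0) (h3 : x ^ 2 + 3 ≠ 0) (h12 : x ^ 2 + 12 ≠ 0) :
    ∑ k, (wt k : S L) * p1 (x ^ 3 * (x ^ 2 + 12) / (x ^ 2 + 3)) (vE0 x k) (vE1 x k) (vE2 x k)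
      (vE0 x k) (vE1 x k) (vE2 x k) = 0 := by
  ext <;> simp [Fin.sum_univ_succ, wt, p1, vE0, vE1, vE2, ofNat_eq_C] <;>
    field_simp <;> (first | ring1 | (right; ring1))

theorem sum_p2 [CharZero L] (x : L) (hx : x ≠ 0) (h3 : x ^ 2 + 3 ≠ 0) (h12 : x ^ 2 + 12 ≠ 0) :
    ∑ k, (wt k : S L) * p2 (vE0 x k) (vE1 x k) (vE2 x k)
      (vE0 x k) (vE1 x k) (vE2 x k) = 0 := by
  ext <;> simp [Fin.sum_univ_succ, wt, p2, vE0, vE1, vE2, ofNat_eq_C] <;> field_simp <;> ring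

theorem sum_q0 [CharZero L] (x t : L) (h3 : x ^ 2 + 3 ≠ 0) :
    ∑ k, (wt k : S L) * p0 t (vE0 x k) (vE1 x k) (vE2 x k) (wE0 x k) 0 0 = 1 := by
  ext <;> simp [Fin.sum_univ_succ, wt, p0, vE0, vE1, vE2, wE0, ofNat_eq_C] <;> field_simp <;> ring

theorem sum_q1 (x t : L) :
    ∑ k, (wt k : S L) * p1 t (vE0 x k) (vE1 x k) (vE2 x k) (wE0 x k) 0 0 = 0 := by
  ext <;> simp [Fin.sum_univ_succ, wt, p1, vE0, vE1, vE2, wE0, ofNat_eq_C]

theorem sum_q2 (x : L) :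
    ∑ k, (wt k : S L) * p2 (vE0 x k) (vE1 x k) (vE2 x k) (wE0 x k) 0 0 = 0 := by
  ext <;> simp [Fin.sum_univ_succ, wt, p2, vE0, vE1, vE2, wE0, ofNat_eq_C]

theorem sum_r0 [CharZero L] (x t : L) :
    ∑ k, (wt k : S L) * p0 t (wE0 x k) 0 0 (wE0 x k) 0 0 = C ((x ^ 2 + 3) / 45) := by
  ext <;> simp [Fin.sum_univ_succ, wt, p0, wE0, ofNat_eq_C] <;> field_simp <;> ring

theorem sum_r1 (x t : L) :
    ∑ k, (wt k : S L) * p1 t (wE0 x k) 0 0 (wE0 x k) 0 0 = 0 := by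
  ext <;> simp [Fin.sum_univ_succ, wt, p1, wE0, ofNat_eq_C]

theorem sum_r2 (x : L) :
    ∑ k, (wt k : S L) * p2 (wE0 x k) 0 0 (wE0 x k) 0 0 = 0 := by
  ext <;> simp [Fin.sum_univ_succ, wt, p2, wE0, ofNat_eq_C]

theorem vec_sub (t : L) (E0 E1 E2 F0 F1 F2 : Fin 9 → S L) :
    vec t (E0 - F0) (E1 - F1) (E2 - F2) = vec t E0 E1 E2 - vec t F0 F1 F2 := by
  ext1 p q
  rcases p with ⟨k, p⟩
  fin_cases p <;> fin_cases q <;> simp [vec, dm, mul_sub]

theorem C_mul_dm (t c : L) (e0 e1 e2 : S L) :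
    dm t (C c * e0) (C c * e1) (C c * e2) = C c • dm t e0 e1 e2 := by
  ext1 i j
  fin_cases i <;> fin_cases j <;> simp [dm, sg_C] <;> ring

theorem rh_Q (t : L) : (Q t).map rh = Q t := by
  ext1 p q
  rcases p with ⟨_, p⟩
  rcases q with ⟨_, q⟩
  simp only [Q, Matrix.map_apply]
  split_ifs
  · fin_cases p <;> fin_cases q <;> simp [C3, rh_C]
  · simp

theorem Q_transpose (t : L) : (Q t).transpose = Q t := by
  ext1 p q
  rcases p with ⟨k, p⟩
  rcases q with ⟨l, q⟩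
  simp only [Q, Matrix.transpose_apply]
  by_cases h : k = l
  · subst h
    fin_cases p <;> fin_cases q <;> simp [C3]
  · rw [if_neg (fun h' => h h'.symm), if_neg h]

theorem rh_C3 (t : L) : (C3 t).map rh = C3 t := by
  ext1 p q
  fin_cases p <;> fin_cases q <;> simp [C3, rh_C]

theorem C3_transpose (t : L) : (C3 t).transpose = C3 t := by
  ext1 p q
  fin_cases p <;> fin_cases q <;> simp [C3]

theorem map_rh_rh {m n : Type} (M : Matrix m n (S L)) : (M.map rh).map rh = M := by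
  ext1 p q
  simp [rh_rh]

theorem herm_symm (t : L) (V W : Matrix I (Fin 3) (S L)) :
    (((V.map rh).transpose * Q t * W).map rh).transpose = (W.map rh).transpose * Q t * V := by
  have e : (V.map rh).transpose.map rh = V.transpose := by
    rw [← Matrix.transpose_map, Matrix.map_map]
    ext1 p q
    simp [rh_rh]
  rw [Matrix.map_mul, Matrix.map_mul, Matrix.transpose_mul, Matrix.transpose_mul, rh_Q,
    Q_transpose, e, Matrix.transpose_transpose, ← Matrix.mul_assoc]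

/-- The explicit hyperbolic pair. -/
theorem exists_pair (L : Type) [Field L] [CharZero L] (x t : L) (hx : x ≠ 0)
    (h3 : x ^ 2 + 3 ≠ 0) (h12 : x ^ 2 + 12 ≠ 0) (ht : t * (x ^ 2 + 3) = x ^ 3 * (x ^ 2 + 12)) :
    ∃ V W : Matrix I (Fin 3) (S L),
      V.map S.sg * B3 t = B t * V ∧ W.map S.sg * B3 t = B t * W ∧
      (V.map S.rh).transpose * Q t * V = 0 ∧ (V.map S.rh).transpose * Q t * W = C3 t ∧
      (W.map S.rh).transpose * Q t * W = 0 := by
  obtain rfl : t = x ^ 3 * (x ^ 2 + 12) / (x ^ 2 + 3) := by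
    rw [eq_div_iff h3, ht]
  set t := x ^ 3 * (x ^ 2 + 12) / (x ^ 2 + 3) with htdef
  set V := vec t (vE0 x) (vE1 x) (vE2 x) with hV
  set W0 := vec t (wE0 x) 0 0 with hW0
  set c : L := (x ^ 2 + 3) / 90 with hc
  have a1 : V.map S.sg * B3 t = B t * V := vec_sg _ _ _ _
  have a2 : W0.map S.sg * B3 t = B t * W0 := vec_sg _ _ _ _
  have b1 : (V.map S.rh).transpose * Q t * V = 0 := by
    rw [hV, vec_herm, sum_p0 x hx h3 h12, sum_p1 x hx h3 h12, sum_p2 x hx h3 h12, dm_zero, mul_zero]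
  have dm_one : ∀ a : S L, S.sg a = a → dm t a 0 0 = a • (1 : Matrix (Fin 3) (Fin 3) (S L)) := by
    intro a ha
    ext1 i j
    fin_cases i <;> fin_cases j <;> simp [dm, ha]
  have b2 : (V.map S.rh).transpose * Q t * W0 = C3 t := by
    rw [hV, hW0, vec_herm]
    simp only [Pi.zero_apply]
    rw [sum_q0 x t h3, sum_q1, sum_q2, dm_one 1 (map_one _), one_smul, mul_one]
  have b3 : (W0.map S.rh).transpose * Q t * W0 = C (2 * c) • C3 t := by
    rw [hW0, vec_herm]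
    simp only [Pi.zero_apply]
    rw [sum_r0, sum_r1, sum_r2, dm_one _ (sg_C _), Matrix.mul_smul, mul_one]
    congr 2
    rw [hc]
    ring
  have b4 : (W0.map S.rh).transpose * Q t * V = C3 t := by
    rw [← herm_symm, b2, rh_C3, C3_transpose]
  refine ⟨V, W0 - C c • V, a1, ?_, b1, ?_, ?_⟩
  · have e : (W0 - C c • V).map S.sg = W0.map S.sg - C c • V.map S.sg := by
      ext1 p q
      simp [sg_C]
    rw [e, Matrix.sub_mul, Matrix.smul_mul, a1, a2, Matrix.mul_sub, Matrix.mul_smul]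
  · rw [Matrix.mul_sub, Matrix.mul_smul, b1, b2, smul_zero, sub_zero]
  · have e : (W0 - C c • V).map S.rh = W0.map S.rh - C c • V.map S.rh := by
      ext1 p q
      simp [rh_C]
    rw [e, Matrix.transpose_sub, Matrix.transpose_smul, Matrix.sub_mul, Matrix.sub_mul,
      Matrix.smul_mul, Matrix.smul_mul, Matrix.mul_sub, Matrix.mul_sub, Matrix.mul_smul,
      Matrix.mul_smul, b1, b2, b3, b4, smul_zero, sub_zero, ← sub_smul, ← sub_smul, map_mul]
    have : (C 2 : S L) = 2 := map_ofNat _ 2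
    rw [this]
    have : (2 * C c - C c - C c : S L) = 0 := by ring
    rw [this, zero_smul]

end

end Pool.Agent.helper83.TA
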