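import Mathlib

/-!
# The ring `R[θ, ω]` with `θ ^ 3 = 2` and `ω ^ 2 + ω + 1 = 0`
-/

set_option autoImplicit false

namespace Pool.Agent.helper83.TA

/-- The element `a0 + a1 θ + a2 θ ^ 2 + (b0 + b1 θ + b2 θ ^ 2) ω`, where `θ ^ 3 = 2` and
`ω ^ 2 + ω + 1 = 0`; as a ring this is `R ⊗ ℤ[θ, ω]`, free of rank 6 over `R`. -/
@[ext] structure S (R : Type) where
  /-- coefficient of `1` -/
  a0 : R
  /-- coefficient of `θ` -/
  a1 : R
  /-- coefficient of `θ ^ 2` -/
  a2 : R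
  /-- coefficient of `ω` -/
  b0 : R
  /-- coefficient of `θ ω` -/
  b1 : R
  /-- coefficient of `θ ^ 2 ω` -/
  b2 : R

namespace S

variable {R R' R'' : Type} [CommRing R] [CommRing R'] [CommRing R'']

instance : Zero (S R) := ⟨⟨0, 0, 0, 0, 0, 0⟩⟩
instance : One (S R) := ⟨⟨1, 0, 0, 0, 0, 0⟩⟩
instance : Add (S R) := ⟨fun x y =>
  ⟨x.a0 + y.a0, x.a1 + y.a1, x.a2 + y.a2, x.b0 + y.b0, x.b1 + y.b1, x.b2 + y.b2⟩⟩
instance : Neg (S R) := ⟨fun x => ⟨-x.a0, -x.a1, -x.a2, -x.b0, -x.b1, -x.b2⟩⟩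
instance : Sub (S R) := ⟨fun x y =>
  ⟨x.a0 - y.a0, x.a1 - y.a1, x.a2 - y.a2, x.b0 - y.b0, x.b1 - y.b1, x.b2 - y.b2⟩⟩

instance : Mul (S R) := ⟨fun x y =>
  ⟨(x.a0 * y.a0 + 2 * (x.a1 * y.a2 + x.a2 * y.a1)) - (x.b0 * y.b0 + 2 * (x.b1 * y.b2 + x.b2 * y.b1)),
   (x.a0 * y.a1 + x.a1 * y.a0 + 2 * (x.a2 * y.a2)) - (x.b0 * y.b1 + x.b1 * y.b0 + 2 * (x.b2 * y.b2)),
   (x.a0 * y.a2 + x.a1 * y.a1 + x.a2 * y.a0) - (x.b0 * y.b2 + x.b1 * y.b1 + x.b2 * y.b0),
   (x.a0 * y.b0 + 2 * (x.a1 * y.b2 + x.a2 * y.b1)) + (x.b0 * y.a0 + 2 * (x.b1 * y.a2 + x.b2 * y.a1))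
     - (x.b0 * y.b0 + 2 * (x.b1 * y.b2 + x.b2 * y.b1)),
   (x.a0 * y.b1 + x.a1 * y.b0 + 2 * (x.a2 * y.b2)) + (x.b0 * y.a1 + x.b1 * y.a0 + 2 * (x.b2 * y.a2))
     - (x.b0 * y.b1 + x.b1 * y.b0 + 2 * (x.b2 * y.b2)),
   (x.a0 * y.b2 + x.a1 * y.b1 + x.a2 * y.b0) + (x.b0 * y.a2 + x.b1 * y.a1 + x.b2 * y.a0)
     - (x.b0 * y.b2 + x.b1 * y.b1 + x.b2 * y.b0)⟩⟩

theorem zero_def : (0 : S R) = ⟨0, 0, 0, 0, 0, 0⟩ := rfl
theorem one_def : (1 : S R) = ⟨1, 0, 0, 0, 0, 0⟩ := rfl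

@[simp] theorem zero_a0 : (0 : S R).a0 = 0 := rfl
@[simp] theorem zero_a1 : (0 : S R).a1 = 0 := rfl
@[simp] theorem zero_a2 : (0 : S R).a2 = 0 := rfl
@[simp] theorem zero_b0 : (0 : S R).b0 = 0 := rfl
@[simp] theorem zero_b1 : (0 : S R).b1 = 0 := rfl
@[simp] theorem zero_b2 : (0 : S R).b2 = 0 := rfl
@[simp] theorem one_a0 : (1 : S R).a0 = 1 := rfl
@[simp] theorem one_a1 : (1 : S R).a1 = 0 := rfl
@[simp] theorem one_a2 : (1 : S R).a2 = 0 := rfl
@[simp] theorem one_b0 : (1 : S R).b0 = 0 := rfl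
@[simp] theorem one_b1 : (1 : S R).b1 = 0 := rfl
@[simp] theorem one_b2 : (1 : S R).b2 = 0 := rfl

section
variable (x y : S R)
@[simp] theorem add_a0 : (x + y).a0 = x.a0 + y.a0 := rfl
@[simp] theorem add_a1 : (x + y).a1 = x.a1 + y.a1 := rfl
@[simp] theorem add_a2 : (x + y).a2 = x.a2 + y.a2 := rfl
@[simp] theorem add_b0 : (x + y).b0 = x.b0 + y.b0 := rfl
@[simp] theorem add_b1 : (x + y).b1 = x.b1 + y.b1 := rfl
@[simp] theorem add_b2 : (x + y).b2 = x.b2 + y.b2 := rfl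
@[simp] theorem neg_a0 : (-x).a0 = -x.a0 := rfl
@[simp] theorem neg_a1 : (-x).a1 = -x.a1 := rfl
@[simp] theorem neg_a2 : (-x).a2 = -x.a2 := rfl
@[simp] theorem neg_b0 : (-x).b0 = -x.b0 := rfl
@[simp] theorem neg_b1 : (-x).b1 = -x.b1 := rfl
@[simp] theorem neg_b2 : (-x).b2 = -x.b2 := rfl
@[simp] theorem sub_a0 : (x - y).a0 = x.a0 - y.a0 := rfl
@[simp] theorem sub_a1 : (x - y).a1 = x.a1 - y.a1 := rfl
@[simp] theorem sub_a2 : (x - y).a2 = x.a2 - y.a2 := rfl
@[simp] theorem sub_b0 : (x - y).b0 = x.b0 - y.b0 := rfl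
@[simp] theorem sub_b1 : (x - y).b1 = x.b1 - y.b1 := rfl
@[simp] theorem sub_b2 : (x - y).b2 = x.b2 - y.b2 := rfl
@[simp] theorem mul_a0 : (x * y).a0 = (x.a0 * y.a0 + 2 * (x.a1 * y.a2 + x.a2 * y.a1)) -
  (x.b0 * y.b0 + 2 * (x.b1 * y.b2 + x.b2 * y.b1)) := rfl
@[simp] theorem mul_a1 : (x * y).a1 = (x.a0 * y.a1 + x.a1 * y.a0 + 2 * (x.a2 * y.a2)) -
  (x.b0 * y.b1 + x.b1 * y.b0 + 2 * (x.b2 * y.b2)) := rfl
@[simp] theorem mul_a2 : (x * y).a2 = (x.a0 * y.a2 + x.a1 * y.a1 + x.a2 * y.a0) -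
  (x.b0 * y.b2 + x.b1 * y.b1 + x.b2 * y.b0) := rfl
@[simp] theorem mul_b0 : (x * y).b0 = (x.a0 * y.b0 + 2 * (x.a1 * y.b2 + x.a2 * y.b1)) +
  (x.b0 * y.a0 + 2 * (x.b1 * y.a2 + x.b2 * y.a1)) -
  (x.b0 * y.b0 + 2 * (x.b1 * y.b2 + x.b2 * y.b1)) := rfl
@[simp] theorem mul_b1 : (x * y).b1 = (x.a0 * y.b1 + x.a1 * y.b0 + 2 * (x.a2 * y.b2)) +
  (x.b0 * y.a1 + x.b1 * y.a0 + 2 * (x.b2 * y.a2)) -
  (x.b0 * y.b1 + x.b1 * y.b0 + 2 * (x.b2 * y.b2)) := rfl
@[simp] theorem mul_b2 : (x * y).b2 = (x.a0 * y.b2 + x.a1 * y.b1 + x.a2 * y.b0) +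
  (x.b0 * y.a2 + x.b1 * y.a1 + x.b2 * y.a0) -
  (x.b0 * y.b2 + x.b1 * y.b1 + x.b2 * y.b0) := rfl
end

instance : AddCommGroup (S R) where
  add_assoc x y z := by ext <;> simp <;> ring
  zero_add x := by ext <;> simp
  add_zero x := by ext <;> simp
  add_comm x y := by ext <;> simp <;> ring
  neg_add_cancel x := by ext <;> simp
  sub_eq_add_neg x y := by ext <;> simp <;> ring
  nsmul := nsmulRec
  zsmul := zsmulRec

instance : CommRing (S R) where
  __ := (inferInstance : AddCommGroup (S R))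
  mul_assoc x y z := by ext <;> simp <;> ring
  one_mul x := by ext <;> simp
  mul_one x := by ext <;> simp
  left_distrib x y z := by ext <;> simp <;> ring
  right_distrib x y z := by ext <;> simp <;> ring
  mul_comm x y := by ext <;> simp <;> ring
  zero_mul x := by ext <;> simp
  mul_zero x := by ext <;> simp

/-- constants -/
def C : R →+* S R where
  toFun r := ⟨r, 0, 0, 0, 0, 0⟩
  map_zero' := rfl
  map_one' := rfl
  map_add' x y := by ext <;> simp
  map_mul' x y := by ext <;> simp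

@[simp] theorem C_a0 (r : R) : (C r).a0 = r := rfl
@[simp] theorem C_a1 (r : R) : (C r).a1 = 0 := rfl
@[simp] theorem C_a2 (r : R) : (C r).a2 = 0 := rfl
@[simp] theorem C_b0 (r : R) : (C r).b0 = 0 := rfl
@[simp] theorem C_b1 (r : R) : (C r).b1 = 0 := rfl
@[simp] theorem C_b2 (r : R) : (C r).b2 = 0 := rfl

/-- the primitive cube root of unity -/
def om : S R := ⟨0, 0, 0, 1, 0, 0⟩

/-- the cube root of 2 -/
def th : S R := ⟨0, 1, 0, 0, 0, 0⟩

@[simp] theorem om_a0 : (om : S R).a0 = 0 := rfl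
@[simp] theorem om_a1 : (om : S R).a1 = 0 := rfl
@[simp] theorem om_a2 : (om : S R).a2 = 0 := rfl
@[simp] theorem om_b0 : (om : S R).b0 = 1 := rfl
@[simp] theorem om_b1 : (om : S R).b1 = 0 := rfl
@[simp] theorem om_b2 : (om : S R).b2 = 0 := rfl
@[simp] theorem th_a0 : (th : S R).a0 = 0 := rfl
@[simp] theorem th_a1 : (th : S R).a1 = 1 := rfl
@[simp] theorem th_a2 : (th : S R).a2 = 0 := rfl
@[simp] theorem th_b0 : (th : S R).b0 = 0 := rfl
@[simp] theorem th_b1 : (th : S R).b1 = 0 := rfl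
@[simp] theorem th_b2 : (th : S R).b2 = 0 := rfl

theorem om_rel : (om : S R) ^ 2 + om + 1 = 0 := by
  rw [pow_two]
  ext <;> simp

theorem th_rel : (th : S R) ^ 3 = 2 := by
  have h : (2 : S R) = 1 + 1 := by norm_num
  rw [h, pow_succ, pow_two]
  ext <;> simp
  norm_num

/-- every element in terms of `θ` and `ω` -/
theorem eq_sum (x : S R) : x = C x.a0 + C x.a1 * th + C x.a2 * th ^ 2 +
    (C x.b0 + C x.b1 * th + C x.b2 * th ^ 2) * om := by
  rw [pow_two]
  ext <;> simp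

/-- functoriality -/
def map (f : R →+* R') : S R →+* S R' where
  toFun x := ⟨f x.a0, f x.a1, f x.a2, f x.b0, f x.b1, f x.b2⟩
  map_zero' := by ext <;> simp
  map_one' := by ext <;> simp
  map_add' x y := by ext <;> simp
  map_mul' x y := by ext <;> simp [map_ofNat]

@[simp] theorem map_a0 (f : R →+* R') (x : S R) : (map f x).a0 = f x.a0 := rfl
@[simp] theorem map_a1 (f : R →+* R') (x : S R) : (map f x).a1 = f x.a1 := rfl
@[simp] theorem map_a2 (f : R →+* R') (x : S R) : (map f x).a2 = f x.a2 := rfl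
@[simp] theorem map_b0 (f : R →+* R') (x : S R) : (map f x).b0 = f x.b0 := rfl
@[simp] theorem map_b1 (f : R →+* R') (x : S R) : (map f x).b1 = f x.b1 := rfl
@[simp] theorem map_b2 (f : R →+* R') (x : S R) : (map f x).b2 = f x.b2 := rfl

theorem map_id (x : S R) : map (RingHom.id R) x = x := by ext <;> simp

theorem map_map (f : R →+* R') (g : R' →+* R'') (x : S R) :
    map g (map f x) = map (g.comp f) x := by ext <;> simp

theorem map_C (f : R →+* R') (r : R) : map f (C r) = C (f r) := by ext <;> simp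

theorem map_om (f : R →+* R') : map f om = om := by ext <;> simp

theorem map_th (f : R →+* R') : map f th = th := by ext <;> simp

/-- the automorphism `θ ↦ ω θ`, `ω ↦ ω` -/
def sg : S R →+* S R where
  toFun x := ⟨x.a0, -x.b1, x.b2 - x.a2, x.b0, x.a1 - x.b1, -x.a2⟩
  map_zero' := by ext <;> simp
  map_one' := by ext <;> simp
  map_add' x y := by ext <;> simp <;> ring
  map_mul' x y := by ext <;> simp <;> ring

/-- the automorphism `θ ↦ θ`, `ω ↦ ω ^ 2 = -1 - ω` -/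
def rh : S R →+* S R where
  toFun x := ⟨x.a0 - x.b0, x.a1 - x.b1, x.a2 - x.b2, -x.b0, -x.b1, -x.b2⟩
  map_zero' := by ext <;> simp
  map_one' := by ext <;> simp
  map_add' x y := by ext <;> simp <;> ring
  map_mul' x y := by ext <;> simp <;> ring

section
variable (x : S R)
@[simp] theorem sg_a0 : (sg x).a0 = x.a0 := rfl
@[simp] theorem sg_a1 : (sg x).a1 = -x.b1 := rfl
@[simp] theorem sg_a2 : (sg x).a2 = x.b2 - x.a2 := rfl
@[simp] theorem sg_b0 : (sg x).b0 = x.b0 := rfl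
@[simp] theorem sg_b1 : (sg x).b1 = x.a1 - x.b1 := rfl
@[simp] theorem sg_b2 : (sg x).b2 = -x.a2 := rfl
@[simp] theorem rh_a0 : (rh x).a0 = x.a0 - x.b0 := rfl
@[simp] theorem rh_a1 : (rh x).a1 = x.a1 - x.b1 := rfl
@[simp] theorem rh_a2 : (rh x).a2 = x.a2 - x.b2 := rfl
@[simp] theorem rh_b0 : (rh x).b0 = -x.b0 := rfl
@[simp] theorem rh_b1 : (rh x).b1 = -x.b1 := rfl
@[simp] theorem rh_b2 : (rh x).b2 = -x.b2 := rfl
end

theorem sg_sg_sg (x : S R) : sg (sg (sg x)) = x := by ext <;> simp <;> ring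
theorem rh_rh (x : S R) : rh (rh x) = x := by ext <;> simp
theorem rh_sg (x : S R) : rh (sg x) = sg (sg (rh x)) := by ext <;> simp <;> ring
theorem sg_rh (x : S R) : sg (rh x) = rh (sg (sg x)) := by ext <;> simp <;> ring
theorem sg_C (r : R) : sg (C r) = C r := by ext <;> simp
theorem rh_C (r : R) : rh (C r) = C r := by ext <;> simp
theorem sg_om : sg (om : S R) = om := by ext <;> simp
theorem sg_th : sg (th : S R) = om * th := by ext <;> simp
theorem rh_om : rh (om : S R) = om ^ 2 := by rw [pow_two]; ext <;> simp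
theorem rh_th : rh (th : S R) = th := by ext <;> simp
theorem map_sg (f : R →+* R') (x : S R) : map f (sg x) = sg (map f x) := by ext <;> simp
theorem map_rh (f : R →+* R') (x : S R) : map f (rh x) = rh (map f x) := by ext <;> simp

end S

/-! ### The group -/

/-- The index set of the matrices, with `27` elements. -/
abbrev I : Type := Fin 9 × Fin 3

/-- the diagonal entries of the hermitian form -/
def wt : Fin 9 → ℕ := ![1, 1, 1, 5, 30, 2, 1, 1, 2]

section
variable {R R' : Type} [CommRing R] [CommRing R']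

/-- the matrix of `β`, where `β ^ 3 = t` -/
def B3 (t : R) : Matrix (Fin 3) (Fin 3) (S R) :=
  !![0, 0, S.C t; 1, 0, 0; 0, 1, 0]

/-- the matrix of the form of the involution -/
def C3 (t : R) : Matrix (Fin 3) (Fin 3) (S R) :=
  !![1, 0, 0; 0, 0, S.C t; 0, S.C t, 0]

/-- nine copies of `B3` on the diagonal -/
def B (t : R) : Matrix I I (S R) :=
  fun p q => if p.1 = q.1 then B3 t p.2 q.2 else 0

/-- the blocks `wt i • C3` on the diagonal -/
def Q (t : R) : Matrix I I (S R) :=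
  fun p q => if p.1 = q.1 then (wt p.1 : S R) * C3 t p.2 q.2 else 0

/-- The special unitary group: matrices `g` with entries in `R[θ, ω]`, of determinant one, with
`σ(g) B = B g` (so `g` is a `9 × 9` matrix over the cyclic algebra `(2, t)_ω`) and
`ρ(g)ᵀ Q g = Q` (`g` preserves the hermitian form). -/
def SU (R : Type) [CommRing R] (t : R) : Subgroup (Matrix.SpecialLinearGroup I (S R)) where
  carrier := {g | (g : Matrix I I (S R)).map S.sg * B t = B t * (g : Matrix I I (S R)) ∧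
    ((g : Matrix I I (S R)).map S.rh).transpose * Q t * (g : Matrix I I (S R)) = Q t}
  one_mem' := by
    refine ⟨?_, ?_⟩
    · rw [Matrix.SpecialLinearGroup.coe_one, Matrix.map_one _ (map_zero _) (map_one _),
        one_mul, mul_one]
    · rw [Matrix.SpecialLinearGroup.coe_one, Matrix.map_one _ (map_zero _) (map_one _),
        Matrix.transpose_one, one_mul, mul_one]
  mul_mem' := by
    rintro a b ⟨ha1, ha2⟩ ⟨hb1, hb2⟩
    refine ⟨?_, ?_⟩
    · rw [Matrix.SpecialLinearGroup.coe_mul, Matrix.map_mul, Matrix.mul_assoc, hb1,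
        ← Matrix.mul_assoc, ha1, Matrix.mul_assoc]
    · rw [Matrix.SpecialLinearGroup.coe_mul, Matrix.map_mul, Matrix.transpose_mul]
      calc ((b : Matrix I I (S R)).map S.rh).transpose * ((a : Matrix I I (S R)).map S.rh).transpose *
            Q t * ((a : Matrix I I (S R)) * (b : Matrix I I (S R)))
          = ((b : Matrix I I (S R)).map S.rh).transpose *
            (((a : Matrix I I (S R)).map S.rh).transpose * Q t * (a : Matrix I I (S R))) *
              (b : Matrix I I (S R)) := by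
            simp only [Matrix.mul_assoc]
        _ = Q t := by rw [ha2, hb2]
  inv_mem' := by
    rintro a ⟨ha1, ha2⟩
    have h1 : (a : Matrix I I (S R)) * ((a⁻¹ : Matrix.SpecialLinearGroup I (S R)) :
        Matrix I I (S R)) = 1 := by
      rw [← Matrix.SpecialLinearGroup.coe_mul, mul_inv_cancel, Matrix.SpecialLinearGroup.coe_one]
    have h2 : ((a⁻¹ : Matrix.SpecialLinearGroup I (S R)) : Matrix I I (S R)) *
        (a : Matrix I I (S R)) = 1 := by
      rw [← Matrix.SpecialLinearGroup.coe_mul, inv_mul_cancel, Matrix.SpecialLinearGroup.coe_one]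
    set A := (a : Matrix I I (S R))
    set A' := ((a⁻¹ : Matrix.SpecialLinearGroup I (S R)) : Matrix I I (S R))
    have h3 : A'.map S.sg * A.map S.sg = 1 := by
      rw [← Matrix.map_mul, h2, Matrix.map_one _ (map_zero _) (map_one _)]
    have h4 : (A'.map S.rh).transpose * (A.map S.rh).transpose = 1 := by
      rw [← Matrix.transpose_mul, ← Matrix.map_mul, h1, Matrix.map_one _ (map_zero _) (map_one _),
        Matrix.transpose_one]
    refine ⟨?_, ?_⟩
    · calc A'.map S.sg * B t = A'.map S.sg * B t * (A * A') := by rw [h1, mul_one]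
        _ = A'.map S.sg * (B t * A) * A' := by simp only [Matrix.mul_assoc]
        _ = (A'.map S.sg * A.map S.sg) * B t * A' := by rw [← ha1]; simp only [Matrix.mul_assoc]
        _ = B t * A' := by rw [h3, one_mul]
    · calc (A'.map S.rh).transpose * Q t * A'
          = (A'.map S.rh).transpose * ((A.map S.rh).transpose * Q t * A) * A' := by rw [ha2]
        _ = ((A'.map S.rh).transpose * (A.map S.rh).transpose) * Q t * (A * A') := by
            simp only [Matrix.mul_assoc]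
        _ = Q t := by rw [h4, h1, one_mul, mul_one]

end

end Pool.Agent.helper83.TA
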